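import Pool.Agent.L0h45.AV.Stm

/-! # Project AV: the density of the `b` with squarefree discriminant (module DEN) -/

set_option autoImplicit false

namespace Pool.Agent.L0h19.AV

open Finset Filter Topology
open scoped Classical
open Pool.Agent.N922.PQ (dsc)
open Pool.Agent.L0h45.AV

/-- elements of an interval in one class -/
theorem card_cls (Y m : ℕ) (hm : 1 ≤ m) (S : Finset ℤ) (h1 : ∀ b ∈ S, b ∈ Icc (-(Y : ℤ)) Y)
    (h2 : ∀ b ∈ S, ∀ b' ∈ S, (m : ℤ) ∣ b - b') : (S.card : ℝ) ≤ 2 * Y / m + 1 := by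
  have hm0 : (0 : ℤ) < m := by exact_mod_cast hm
  rcases S.eq_empty_or_nonempty with rfl | hne
  · rw [card_empty, Nat.cast_zero]
    positivity
  · obtain ⟨c, hcm, hcl⟩ : ∃ c ∈ S, ∀ b ∈ S, c ≤ b := ⟨S.min' hne, S.min'_mem hne, fun b hb => S.min'_le b hb⟩
    have h3 : S.card ≤ (Finset.range (2 * Y / m + 1)).card := by
      apply Finset.card_le_card_of_injOn (fun b => ((b - c) / m).toNat)
      · intro b hb
        have hb0 : b ∈ S := hb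
        have hc := h1 c hcm
        have hb' := h1 b hb0
        rw [mem_Icc] at hc hb'
        have h4 : (b - c) / (m : ℤ) ≤ ((2 * Y : ℕ) : ℤ) / (m : ℤ) := by
          apply Int.ediv_le_ediv hm0
          push_cast
          linarith
        have h5 : 0 ≤ ((2 * Y : ℕ) : ℤ) / (m : ℤ) := by positivity
        have h6 : ((b - c) / m).toNat < 2 * Y / m + 1 := by omega
        exact Finset.mem_coe.2 (Finset.mem_range.2 h6)
      · intro b hb b' hb' hbb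
        have hb0 : b ∈ S := hb
        have hb0' : b' ∈ S := hb'
        obtain ⟨k, hk⟩ := h2 b hb0 c hcm
        obtain ⟨k', hk'⟩ := h2 b' hb0' c hcm
        have e : ((b - c) / (m : ℤ)).toNat = ((b' - c) / (m : ℤ)).toNat := hbb
        rw [hk, hk', Int.mul_ediv_cancel_left _ hm0.ne', Int.mul_ediv_cancel_left _ hm0.ne'] at e
        have hk0 : 0 ≤ k := by
          have := hcl b hb0
          by_contra hcon
          push Not at hcon
          nlinarith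
        have hk0' : 0 ≤ k' := by
          have := hcl b' hb0'
          by_contra hcon
          push Not at hcon
          nlinarith
        have e2 : k = k' := by omega
        rw [e2] at hk
        linarith
    rw [Finset.card_range] at h3
    have h4 : (S.card : ℝ) ≤ ((2 * Y / m : ℕ) : ℝ) + 1 := by exact_mod_cast h3
    have h5 : ((2 * Y / m : ℕ) : ℝ) ≤ ((2 * Y : ℕ) : ℝ) / (m : ℝ) := Nat.cast_div_le
    push_cast at h5
    linarith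

/-- the number of the elements of an interval in one class -/
theorem card_low (Y m : ℕ) (hm : 1 ≤ m) (r : ℤ) :
    (2 * (Y : ℝ) + 1) / m - 1 ≤ (((Icc (-(Y : ℤ)) Y).filter (fun b => (m : ℤ) ∣ b - r)).card : ℝ) := by
  have hm0 : (0 : ℤ) < m := by exact_mod_cast hm
  have h1 : (Finset.range ((2 * Y + 1) / m)).card ≤
      ((Icc (-(Y : ℤ)) Y).filter (fun b => (m : ℤ) ∣ b - r)).card := by
    apply Finset.card_le_card_of_injOn (fun k : ℕ => -(Y : ℤ) + ((r + Y) % m) + k * m)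
    · intro k hk
      have hk' : k < (2 * Y + 1) / m := Finset.mem_range.1 hk
      have h2 : (k + 1) * m ≤ 2 * Y + 1 := (Nat.mul_le_mul_right m hk').trans (Nat.div_mul_le_self _ _)
      have h3 : ((k : ℤ) + 1) * m ≤ 2 * Y + 1 := by exact_mod_cast h2
      have h4 := Int.emod_nonneg (r + Y) hm0.ne'
      have h5 := Int.emod_lt_of_pos (r + Y) hm0
      have h6 : (0 : ℤ) ≤ (k : ℤ) * m := by positivity
      apply Finset.mem_coe.2
      rw [mem_filter, mem_Icc]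
      refine ⟨⟨?_, ?_⟩, ?_⟩
      · show -(Y : ℤ) ≤ -(Y : ℤ) + ((r + Y) % m) + k * m
        linarith
      · show -(Y : ℤ) + ((r + Y) % m) + k * m ≤ Y
        have h7 : ((k : ℤ) + 1) * m = k * m + m := by ring
        linarith
      · show (m : ℤ) ∣ -(Y : ℤ) + ((r + Y) % m) + k * m - r
        have h8 := Int.emod_add_mul_ediv (r + Y) m
        refine ⟨k - (r + Y) / m, ?_⟩
        linarith
    · intro k _ k' _ hkk
      have e : -(Y : ℤ) + ((r + Y) % m) + k * m = -(Y : ℤ) + ((r + Y) % m) + k' * m := hkk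
      have e2 : (k : ℤ) * m = k' * m := by linarith
      have e3 := mul_right_cancel₀ hm0.ne' e2
      exact_mod_cast e3
  rw [Finset.card_range] at h1
  have h2 : (2 * Y + 1 : ℕ) < ((2 * Y + 1) / m + 1) * m := by
    have h3 := Nat.div_add_mod (2 * Y + 1) m
    have h4 := Nat.mod_lt (2 * Y + 1) hm
    have h5 : ((2 * Y + 1) / m + 1) * m = m * ((2 * Y + 1) / m) + m := by ring
    omega
  have h3 : (2 * (Y : ℝ) + 1) < (((2 * Y + 1) / m : ℕ) + 1) * (m : ℝ) := by exact_mod_cast h2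
  have hmr : (0 : ℝ) < m := by exact_mod_cast hm
  have h4 : (2 * (Y : ℝ) + 1) / m < (((2 * Y + 1) / m : ℕ) : ℝ) + 1 := by
    rw [div_lt_iff₀ hmr]; exact h3
  have h5 : (((2 * Y + 1) / m : ℕ) : ℝ) ≤
      (((Icc (-(Y : ℤ)) Y).filter (fun b => (m : ℤ) ∣ b - r)).card : ℝ) := by exact_mod_cast h1
  linarith

theorem prime_int {p : ℕ} (hp : p.Prime) : Prime (p : ℤ) := Nat.prime_iff_prime_int.1 hp

theorem not_dvd_small {p : ℕ} (hp : p.Prime) (h5 : 5 ≤ p) (k : ℕ) (hk : 0 < k) (hk5 : k < 5) :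
    ¬ (p : ℤ) ∣ (k : ℤ) := by
  intro h
  have h1 : p ∣ k := by exact_mod_cast h
  have := Nat.le_of_dvd hk h1
  omega

/-- two classes modulo `p ^ 2` -/
theorem two_cls {p : ℕ} (hp : p.Prime) (h5 : 5 ≤ p) {a : ℤ} (ha : ¬ (p : ℤ) ∣ a) {b b' : ℤ}
    (hb : (p : ℤ) ^ 2 ∣ dsc a b) (hb' : (p : ℤ) ^ 2 ∣ dsc a b') :
    (p : ℤ) ^ 2 ∣ b - b' ∨ (p : ℤ) ^ 2 ∣ b + b' := by
  have hpp := prime_int hp
  have h2 : ¬ (p : ℤ) ∣ 2 := not_dvd_small hp h5 2 (by norm_num) (by norm_num)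
  have h3 : ¬ (p : ℤ) ∣ 3 := not_dvd_small hp h5 3 (by norm_num) (by norm_num)
  have h27 : ¬ (p : ℤ) ∣ 27 := by
    intro h
    have e : (27 : ℤ) = 3 ^ 3 := by norm_num
    rw [e] at h
    exact h3 (hpp.dvd_of_dvd_pow h)
  have h4 : (p : ℤ) ^ 2 ∣ 27 * ((b - b') * (b + b')) := by
    have e : 27 * ((b - b') * (b + b')) = dsc a b - dsc a b' := by unfold dsc; ring
    rw [e]
    exact dvd_sub hb hb'
  have h6 : (p : ℤ) ^ 2 ∣ (b - b') * (b + b') := by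
    apply IsCoprime.dvd_of_dvd_mul_left _ h4
    apply IsCoprime.pow_left
    exact (Prime.coprime_iff_not_dvd hpp).2 h27
  by_cases h7 : (p : ℤ) ∣ b - b'
  · by_cases h8 : (p : ℤ) ∣ b + b'
    · exfalso
      have h9 : (p : ℤ) ∣ 2 * b := by
        have := dvd_add h7 h8
        have e : b - b' + (b + b') = 2 * b := by ring
        rwa [e] at this
      have h10 : (p : ℤ) ∣ b := (hpp.dvd_or_dvd h9).resolve_left h2
      have h11 : (p : ℤ) ∣ 4 * a ^ 3 := by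
        have h12 : (p : ℤ) ∣ dsc a b := (dvd_pow_self _ two_ne_zero).trans hb
        have e : 4 * a ^ 3 = dsc a b - 27 * b * b := by unfold dsc; ring
        rw [e]
        exact dvd_sub h12 (h10.mul_left _)
      rcases hpp.dvd_or_dvd h11 with h12 | h12
      · have e : (4 : ℤ) = 2 ^ 2 := by norm_num
        rw [e] at h12
        exact h2 (hpp.dvd_of_dvd_pow h12)
      · exact ha (hpp.dvd_of_dvd_pow h12)
    · left
      rw [mul_comm] at h6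
      apply IsCoprime.dvd_of_dvd_mul_left _ h6
      apply IsCoprime.pow_left
      exact (Prime.coprime_iff_not_dvd hpp).2 h8
  · right
    apply IsCoprime.dvd_of_dvd_mul_left _ h6
    apply IsCoprime.pow_left
    exact (Prime.coprime_iff_not_dvd hpp).2 h7

/-- the `b` for which the discriminant is divisible by `p ^ 2` -/
theorem cnt2 {p : ℕ} (hp : p.Prime) (h5 : 5 ≤ p) {a : ℤ} (ha : ¬ (p : ℤ) ∣ a) (N : ℕ) (hN : 1 ≤ N)
    (hNp : Nat.Coprime N p) (s : ℤ) (Y : ℕ) :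
    (((Icc (-(Y : ℤ)) Y).filter (fun b => (N : ℤ) ∣ b - s ∧ (p : ℤ) ^ 2 ∣ dsc a b)).card : ℝ) ≤
      2 * (2 * Y / (N * (p : ℝ) ^ 2) + 1) := by
  obtain ⟨S, hS⟩ : ∃ S : Finset ℤ,
    S = (Icc (-(Y : ℤ)) Y).filter (fun b => (N : ℤ) ∣ b - s ∧ (p : ℤ) ^ 2 ∣ dsc a b) := ⟨_, rfl⟩
  rw [← hS]
  have hcop : IsCoprime (N : ℤ) ((p : ℤ) ^ 2) := by
    apply IsCoprime.pow_right
    exact Nat.isCoprime_iff_coprime.2 hNp
  have hm : 1 ≤ N * p ^ 2 := Nat.mul_pos hN (pow_pos hp.pos 2)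
  have hmem : ∀ b ∈ S, b ∈ Icc (-(Y : ℤ)) Y ∧ (N : ℤ) ∣ b - s ∧ (p : ℤ) ^ 2 ∣ dsc a b := by
    intro b hb
    rw [hS] at hb
    exact mem_filter.1 hb
  have key : ∀ T : Finset ℤ, T ⊆ S → (∀ b ∈ T, ∀ b' ∈ T, (p : ℤ) ^ 2 ∣ b - b') →
      (T.card : ℝ) ≤ 2 * Y / (N * (p : ℝ) ^ 2) + 1 := by
    intro T hT hT2
    have h := card_cls Y (N * p ^ 2) hm T (fun b hb => (hmem b (hT hb)).1) (fun b hb b' hb' => by
      push_cast
      apply hcop.mul_dvd _ (hT2 b hb b' hb')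
      have h1 := dvd_sub (hmem b (hT hb)).2.1 (hmem b' (hT hb')).2.1
      have e : b - s - (b' - s) = b - b' := by ring
      rwa [e] at h1)
    push_cast at h
    exact h
  rcases S.eq_empty_or_nonempty with hS0 | ⟨b₀, hb₀⟩
  · rw [hS0, card_empty, Nat.cast_zero]
    positivity
  · have h1 := key (S.filter (fun b => (p : ℤ) ^ 2 ∣ b - b₀)) (filter_subset _ _) (fun b hb b' hb' => by
      have h2 := dvd_sub (mem_filter.1 hb).2 (mem_filter.1 hb').2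
      have e : b - b₀ - (b' - b₀) = b - b' := by ring
      rwa [e] at h2)
    have h2 := key (S.filter (fun b => ¬ (p : ℤ) ^ 2 ∣ b - b₀)) (filter_subset _ _)
      (fun b hb b' hb' => by
      have h3 := (two_cls hp h5 ha (hmem b (mem_filter.1 hb).1).2.2 (hmem b₀ hb₀).2.2).resolve_left
        (mem_filter.1 hb).2
      have h4 := (two_cls hp h5 ha (hmem b' (mem_filter.1 hb').1).2.2 (hmem b₀ hb₀).2.2).resolve_left
        (mem_filter.1 hb').2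
      have h5 := dvd_sub h3 h4
      have e : b + b₀ - (b' + b₀) = b - b' := by ring
      rwa [e] at h5)
    have h3 : (S.filter (fun b => (p : ℤ) ^ 2 ∣ b - b₀)).card +
        (S.filter (fun b => ¬ (p : ℤ) ^ 2 ∣ b - b₀)).card = S.card :=
      Finset.card_filter_add_card_filter_not _
    have h4 : (S.card : ℝ) = ((S.filter (fun b => (p : ℤ) ^ 2 ∣ b - b₀)).card : ℝ) +
        ((S.filter (fun b => ¬ (p : ℤ) ^ 2 ∣ b - b₀)).card : ℝ) := by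
      rw [← h3]; push_cast; rfl
    rw [h4]
    linarith

/-- the prime numbers have density zero -/
theorem primes_small (ε : ℝ) (hε : 0 < ε) : ∃ Y₀ : ℕ, ∀ Y ≥ Y₀, (Nat.primeCounting Y : ℝ) ≤ ε * Y := by
  have h1 := Chebyshev.eventually_primeCounting_le (ε := 1) one_pos
  have h2 : ∀ᶠ x : ℝ in atTop, (Real.log 4 + 1) / ε ≤ Real.log x :=
    Real.tendsto_log_atTop.eventually_ge_atTop _
  have h3 : ∀ᶠ x : ℝ in atTop, (1 : ℝ) < x := eventually_gt_atTop 1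
  obtain ⟨x₀, hx₀⟩ := (h1.and (h2.and h3)).exists_forall_of_atTop
  refine ⟨⌈x₀⌉₊, fun Y hY => ?_⟩
  have hY' : x₀ ≤ (Y : ℝ) := (Nat.le_ceil x₀).trans (by exact_mod_cast hY)
  obtain ⟨h4, h5, h6⟩ := hx₀ Y hY'
  rw [Nat.floor_natCast] at h4
  refine h4.trans ?_
  have h7 : 0 < Real.log Y := Real.log_pos h6
  rw [div_le_iff₀ h7]
  rw [div_le_iff₀ hε] at h5
  have h8 : (0 : ℝ) ≤ Y := Nat.cast_nonneg _
  nlinarith

/-- the bad `b` -/
theorem bad (hP : Pool.Agent.L0h45.LR.S_PELL) (a : ℤ) (ha : 0 < a) (N w : ℕ) (hN : 1 ≤ N) (hw : 4 ≤ w)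
    (s : ℤ) (H : ∀ p : ℕ, p.Prime → w < p → ∀ b : ℤ, (N : ℤ) ∣ b - s → (p : ℤ) ^ 2 ∣ dsc a b →
      ¬ (p : ℤ) ∣ a ∧ Nat.Coprime N p) (ε : ℝ) (hε : 0 < ε) :
    ∃ Y₀ : ℕ, ∀ Y ≥ Y₀, (((Icc (-(Y : ℤ)) Y).filter
      (fun b => (N : ℤ) ∣ b - s ∧ ∃ p : ℕ, p.Prime ∧ w < p ∧ (p : ℤ) ^ 2 ∣ dsc a b)).card : ℝ) ≤
      4 * Y / (N * w) + ε * Y := by
  obtain ⟨Y₁, hY₁⟩ := hP a (ε / 2) ha (by positivity)
  obtain ⟨Y₂, hY₂⟩ := primes_small (ε / 4) (by positivity)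
  refine ⟨max (max Y₁ Y₂) w, fun Y hY => ?_⟩
  have hYa : Y₁ ≤ Y := (le_max_left _ _).trans ((le_max_left _ _).trans hY)
  have hYb : Y₂ ≤ Y := (le_max_right _ _).trans ((le_max_left _ _).trans hY)
  have hYc : w ≤ Y := (le_max_right _ _).trans hY
  have h1 := hY₁ Y hYa
  have h2 := hY₂ Y hYb
  obtain ⟨PS, hPS⟩ : ∃ PS : Finset ℕ, PS = (Ioc w Y).filter Nat.Prime := ⟨_, rfl⟩
  have hsub : (Icc (-(Y : ℤ)) Y).filter
      (fun b => (N : ℤ) ∣ b - s ∧ ∃ p : ℕ, p.Prime ∧ w < p ∧ (p : ℤ) ^ 2 ∣ dsc a b) ⊆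
      (PS.biUnion fun p => (Icc (-(Y : ℤ)) Y).filter
        (fun b => (N : ℤ) ∣ b - s ∧ (p : ℤ) ^ 2 ∣ dsc a b)) ∪
      (Icc (-(Y : ℤ)) Y).filter (fun b => ∃ n : ℤ, (Y : ℤ) < n ∧ n ^ 2 ∣ 4 * a ^ 3 + 27 * b ^ 2) := by
    intro b hb
    rw [mem_filter] at hb
    obtain ⟨hb1, hb2, p, hp, hwp, hd⟩ := hb
    rw [mem_union]
    rcases le_or_gt p Y with hpY | hpY
    · left
      rw [mem_biUnion]
      refine ⟨p, ?_, mem_filter.2 ⟨hb1, hb2, hd⟩⟩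
      rw [hPS, mem_filter, mem_Ioc]
      exact ⟨⟨hwp, hpY⟩, hp⟩
    · right
      rw [mem_filter]
      exact ⟨hb1, (p : ℤ), by exact_mod_cast hpY, hd⟩
  have h3 := (card_le_card hsub).trans (card_union_le _ _)
  have h4 : ((PS.biUnion fun p => (Icc (-(Y : ℤ)) Y).filter
        (fun b => (N : ℤ) ∣ b - s ∧ (p : ℤ) ^ 2 ∣ dsc a b)).card : ℝ) ≤
      ∑ p ∈ PS, 2 * (2 * Y / (N * (p : ℝ) ^ 2) + 1) := by
    have h5 : (PS.biUnion fun p => (Icc (-(Y : ℤ)) Y).filter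
        (fun b => (N : ℤ) ∣ b - s ∧ (p : ℤ) ^ 2 ∣ dsc a b)).card ≤
        ∑ p ∈ PS, ((Icc (-(Y : ℤ)) Y).filter
          (fun b => (N : ℤ) ∣ b - s ∧ (p : ℤ) ^ 2 ∣ dsc a b)).card := card_biUnion_le
    refine (Nat.cast_le.2 h5).trans ?_
    rw [Nat.cast_sum]
    apply sum_le_sum
    intro p hp
    rw [hPS, mem_filter, mem_Ioc] at hp
    obtain ⟨⟨hwp, hpY⟩, hpp⟩ := hp
    rcases ((Icc (-(Y : ℤ)) Y).filter
          (fun b => (N : ℤ) ∣ b - s ∧ (p : ℤ) ^ 2 ∣ dsc a b)).eq_empty_or_nonempty with h6 | ⟨b, hb⟩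
    · rw [h6, card_empty, Nat.cast_zero]
      positivity
    · rw [mem_filter] at hb
      obtain ⟨h7, h8⟩ := H p hpp hwp b hb.2.1 hb.2.2
      exact cnt2 hpp (by omega) h7 N hN h8 s Y
  have hw0 : w ≠ 0 := by omega
  have hNr : (0 : ℝ) < N := by exact_mod_cast hN
  have h5 : ∑ p ∈ PS, 2 * (2 * Y / (N * (p : ℝ) ^ 2) + 1) ≤ 4 * Y / (N * w) + 2 * (PS.card : ℝ) := by
    have e : ∑ p ∈ PS, 2 * (2 * (Y : ℝ) / (N * (p : ℝ) ^ 2) + 1) =
        4 * Y / N * ∑ p ∈ PS, ((p : ℝ) ^ 2)⁻¹ + 2 * (PS.card : ℝ) := by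
      have e0 : 2 * (PS.card : ℝ) = ∑ p ∈ PS, (2 : ℝ) := by
        rw [sum_const, nsmul_eq_mul, mul_comm]
      rw [e0, mul_sum, ← sum_add_distrib]
      apply sum_congr rfl
      intro p hp
      rw [hPS, mem_filter] at hp
      have hp0 : (0 : ℝ) < p := by exact_mod_cast hp.2.pos
      field_simp
      ring
    rw [e]
    have h6 : ∑ p ∈ PS, ((p : ℝ) ^ 2)⁻¹ ≤ (w : ℝ)⁻¹ := by
      calc ∑ p ∈ PS, ((p : ℝ) ^ 2)⁻¹ ≤ ∑ p ∈ Ioc w Y, ((p : ℝ) ^ 2)⁻¹ := by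
            apply sum_le_sum_of_subset_of_nonneg
            · rw [hPS]; exact filter_subset _ _
            · intro i _ _; positivity
        _ ≤ (w : ℝ)⁻¹ - (Y : ℝ)⁻¹ := sum_Ioc_inv_sq_le_sub hw0 hYc
        _ ≤ (w : ℝ)⁻¹ := by
            have : (0 : ℝ) ≤ (Y : ℝ)⁻¹ := by positivity
            linarith
    have h7 : 4 * (Y : ℝ) / (N * w) = 4 * Y / N * (w : ℝ)⁻¹ := by
      field_simp
    rw [h7]
    have h8 : (0 : ℝ) ≤ 4 * Y / N := by positivity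
    nlinarith [mul_le_mul_of_nonneg_left h6 h8]
  have h6 : (PS.card : ℝ) ≤ Nat.primeCounting Y := by
    rw [← Nat.primesLE_card_eq_primeCounting]
    have : PS ⊆ Nat.primesLE Y := by
      intro p hp
      rw [hPS, mem_filter, mem_Ioc] at hp
      rw [Nat.mem_primesLE]
      exact ⟨hp.1.2, hp.2⟩
    exact_mod_cast card_le_card this
  have h7 : (((Icc (-(Y : ℤ)) Y).filter
      (fun b => (N : ℤ) ∣ b - s ∧ ∃ p : ℕ, p.Prime ∧ w < p ∧ (p : ℤ) ^ 2 ∣ dsc a b)).card : ℝ) ≤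
      ((PS.biUnion fun p => (Icc (-(Y : ℤ)) Y).filter
        (fun b => (N : ℤ) ∣ b - s ∧ (p : ℤ) ^ 2 ∣ dsc a b)).card : ℝ) +
      (((Icc (-(Y : ℤ)) Y).filter (fun b => ∃ n : ℤ, (Y : ℤ) < n ∧ n ^ 2 ∣ 4 * a ^ 3 + 27 * b ^ 2)).card : ℝ) := by
    exact_mod_cast h3
  linarith

/-- squarefree discriminants -/
theorem sqf_of {a b : ℤ} (ha3 : ¬ (3 : ℤ) ∣ a) (hb : Odd b)
    (h : ∀ p : ℕ, p.Prime → 5 ≤ p → ¬ (p : ℤ) ^ 2 ∣ dsc a b) : Squarefree (dsc a b) := by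
  rw [← Int.squarefree_natAbs, Nat.squarefree_iff_prime_squarefree]
  intro p hp hd
  have hd2 : (p : ℤ) ^ 2 ∣ dsc a b := by
    rw [pow_two]
    exact Int.natCast_dvd.2 hd |> fun h => by push_cast at h; exact h
  by_cases h2 : p = 2
  · subst h2
    obtain ⟨k, rfl⟩ := hb
    obtain ⟨c, hc⟩ := hd2
    unfold dsc at hc
    push_cast at hc
    ring_nf at hc
    omega
  by_cases h3 : p = 3
  · subst h3
    have h4 : (3 : ℤ) ∣ 4 * a ^ 3 := by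
      have h5 : (3 : ℤ) ∣ dsc a b := (dvd_pow_self (3 : ℤ) two_ne_zero).trans hd2
      have e : 4 * a ^ 3 = dsc a b - 3 * (9 * b ^ 2) := by unfold dsc; ring
      rw [e]
      exact dvd_sub h5 (dvd_mul_right _ _)
    have hp3 : Prime (3 : ℤ) := Int.prime_three
    rcases hp3.dvd_or_dvd h4 with h5 | h5
    · norm_num at h5
    · exact ha3 (hp3.dvd_of_dvd_pow h5)
  · have h5 : 5 ≤ p := by
      have h6 := hp.two_le
      by_contra hcon
      have h7 : p = 4 := by omega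
      rw [h7] at hp
      revert hp
      decide
    exact h p hp h5 hd2

/-- the first part -/
theorem part1 (hP : Pool.Agent.L0h45.LR.S_PELL) (a : ℤ) (ha : 0 < a) (ha3 : ¬ (3 : ℤ) ∣ a) :
    ∃ c : ℝ, 0 < c ∧ ∃ Y₀ : ℕ, ∀ Y ≥ Y₀,
      c * (Y : ℝ) ≤ (((Icc (-(Y : ℤ)) Y).filter (fun b => Squarefree (dsc a b))).card : ℝ) := by
  obtain ⟨A, rfl⟩ : ∃ A : ℕ, a = A := ⟨a.toNat, (Int.toNat_of_nonneg ha.le).symm⟩
  have hA : 1 ≤ A := by exact_mod_cast ha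
  have hAr : (0 : ℝ) < A := by exact_mod_cast hA
  have H : ∀ p : ℕ, p.Prime → 4 < p → ∀ b : ℤ, ((2 * A : ℕ) : ℤ) ∣ b - 1 → (p : ℤ) ^ 2 ∣ dsc A b →
      ¬ (p : ℤ) ∣ (A : ℤ) ∧ Nat.Coprime (2 * A) p := by
    intro p hp h5 b hb hd
    have hpp := prime_int hp
    have h1 : ¬ (p : ℤ) ∣ (A : ℤ) := by
      intro hpA
      have h2 : (p : ℤ) ∣ b - 1 := by
        refine Dvd.dvd.trans ?_ hb
        push_cast
        exact hpA.mul_left _
      have h3 : (p : ℤ) ∣ 27 * b ^ 2 := by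
        have h4 : (p : ℤ) ∣ dsc A b := (dvd_pow_self _ two_ne_zero).trans hd
        have e : 27 * b ^ 2 = dsc A b - 4 * (A : ℤ) ^ 2 * A := by unfold dsc; ring
        rw [e]
        exact dvd_sub h4 (hpA.mul_left _)
      have h4 : (p : ℤ) ∣ b := by
        rcases hpp.dvd_or_dvd h3 with h6 | h6
        · exfalso
          have e : (27 : ℤ) = 3 ^ 3 := by norm_num
          rw [e] at h6
          exact not_dvd_small hp h5 3 (by norm_num) (by norm_num) (hpp.dvd_of_dvd_pow h6)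
        · exact hpp.dvd_of_dvd_pow h6
      have h6 : (p : ℤ) ∣ 1 := by
        have := dvd_sub h4 h2
        have e : b - (b - 1) = 1 := by ring
        rwa [e] at this
      exact not_dvd_small hp h5 1 (by norm_num) (by norm_num) (by exact_mod_cast h6)
    refine ⟨h1, ?_⟩
    apply Nat.Coprime.symm
    rw [Nat.Prime.coprime_iff_not_dvd hp]
    intro h2
    rcases (Nat.Prime.dvd_mul hp).1 h2 with h3 | h3
    · exact not_dvd_small hp h5 2 (by norm_num) (by norm_num) (by exact_mod_cast h3)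
    · exact h1 (by exact_mod_cast h3)
  obtain ⟨Y₁, hY₁⟩ := bad hP A ha (2 * A) 4 (by omega) le_rfl 1 H (1 / (8 * A)) (by positivity)
  refine ⟨1 / (8 * A), by positivity, max Y₁ (8 * A), fun Y hY => ?_⟩
  have h1 := hY₁ Y ((le_max_left _ _).trans hY)
  have hY8 : 8 * A ≤ Y := (le_max_right _ _).trans hY
  have h2 := card_low Y (2 * A) (by omega) 1
  have hsub : (Icc (-(Y : ℤ)) Y).filter (fun b => ((2 * A : ℕ) : ℤ) ∣ b - 1) ⊆
      (Icc (-(Y : ℤ)) Y).filter (fun b => Squarefree (dsc A b)) ∪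
      (Icc (-(Y : ℤ)) Y).filter
      (fun b => ((2 * A : ℕ) : ℤ) ∣ b - 1 ∧ ∃ p : ℕ, p.Prime ∧ 4 < p ∧ (p : ℤ) ^ 2 ∣ dsc A b) := by
    intro b hb
    rw [mem_filter] at hb
    rw [mem_union, mem_filter, mem_filter]
    by_cases hsq : Squarefree (dsc (A : ℤ) b)
    · left; exact ⟨hb.1, hsq⟩
    · right
      refine ⟨hb.1, hb.2, ?_⟩
      by_contra hcon
      apply hsq
      apply sqf_of ha3
      · obtain ⟨k, hk⟩ := hb.2
        refine ⟨A * k, ?_⟩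
        push_cast at hk
        linarith
      · intro p hp hp5 hd
        exact hcon ⟨p, hp, hp5, hd⟩
  have h3 := (card_le_card hsub).trans (card_union_le _ _)
  have h4 : (((Icc (-(Y : ℤ)) Y).filter (fun b => ((2 * A : ℕ) : ℤ) ∣ b - 1)).card : ℝ) ≤
      (((Icc (-(Y : ℤ)) Y).filter (fun b => Squarefree (dsc A b))).card : ℝ) +
      (((Icc (-(Y : ℤ)) Y).filter
      (fun b => ((2 * A : ℕ) : ℤ) ∣ b - 1 ∧ ∃ p : ℕ, p.Prime ∧ 4 < p ∧ (p : ℤ) ^ 2 ∣ dsc A b)).card : ℝ) := by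
    exact_mod_cast h3
  have hYr : 8 * (A : ℝ) ≤ Y := by exact_mod_cast hY8
  have h5 : 1 ≤ (Y : ℝ) / (8 * A) := by
    rw [le_div_iff₀ (by positivity)]; linarith
  have e1 : (2 * (Y : ℝ) + 1) / ((2 * A : ℕ) : ℝ) = 8 * (Y / (8 * A)) + 1 / (2 * A) := by
    push_cast
    field_simp
  have e2 : 4 * (Y : ℝ) / (((2 * A : ℕ) : ℝ) * ((4 : ℕ) : ℝ)) = 4 * (Y / (8 * A)) := by
    push_cast
    field_simp
    ring
  have e3 : 1 / (8 * (A : ℝ)) * Y = Y / (8 * A) := by ring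
  rw [e1] at h2
  rw [e2, e3] at h1
  rw [e3]
  have h6 : (0 : ℝ) ≤ 1 / (2 * A) := by positivity
  linarith

theorem MZ_pos (Z : ℕ) : 1 ≤ MZ Z := by
  unfold MZ
  apply Nat.mul_pos (by norm_num)
  apply prod_pos
  intro p hp
  exact pow_pos (mem_filter.1 hp).2.pos 2

theorem two_dvd_MZ (Z : ℕ) : (2 : ℤ) ∣ (MZ Z : ℤ) := by
  unfold MZ
  refine ⟨12 * ((∏ p ∈ (Icc 5 Z).filter Nat.Prime, p ^ 2 : ℕ) : ℤ), ?_⟩
  push_cast
  ring

theorem sq_dvd_MZ (Z p : ℕ) (hp : p.Prime) (h5 : 5 ≤ p) (hZ : p ≤ Z) : (p : ℤ) ^ 2 ∣ (MZ Z : ℤ) := by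
  have h1 : p ^ 2 ∣ MZ Z := by
    unfold MZ
    apply Dvd.dvd.mul_left
    exact dvd_prod_of_mem (fun p => p ^ 2) (mem_filter.2 ⟨mem_Icc.2 ⟨h5, hZ⟩, hp⟩)
  exact_mod_cast h1

theorem Al_congr {Z : ℕ} {a b b' : ℤ} (h : (MZ Z : ℤ) ∣ b - b') (hb : Al Z a b) : Al Z a b' := by
  refine ⟨?_, ?_⟩
  · have h1 := (two_dvd_MZ Z).trans h
    obtain ⟨k, hk⟩ := hb.1
    obtain ⟨l, hl⟩ := h1
    exact ⟨k - l, by linarith⟩
  · intro p hp h5 hZ hd
    apply hb.2 p hp h5 hZ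
    have h1 := (sq_dvd_MZ Z p hp h5 hZ).trans h
    have e : dsc a b = dsc a b' + (b - b') * (27 * (b + b')) := by unfold dsc; ring
    rw [e]
    exact dvd_add hd (h1.mul_right _)

/-- lower bound for the number of the `b` in the classes -/
theorem Al_low (Z Y : ℕ) (a : ℤ) :
    (((Ico (0 : ℤ) (MZ Z)).filter (fun b => Al Z a b)).card : ℝ) * ((2 * (Y : ℝ) + 1) / (MZ Z : ℝ) - 1) ≤
      (((Icc (-(Y : ℤ)) Y).filter (fun b => Al Z a b)).card : ℝ) := by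
  have hM := MZ_pos Z
  have hM0 : (0 : ℤ) < MZ Z := by exact_mod_cast hM
  have hmaps : ∀ b ∈ (Icc (-(Y : ℤ)) Y).filter (fun b => Al Z a b),
      b % (MZ Z : ℤ) ∈ (Ico (0 : ℤ) (MZ Z)).filter (fun b => Al Z a b) := by
    intro b hb
    rw [mem_filter] at hb
    rw [mem_filter, mem_Ico]
    refine ⟨⟨Int.emod_nonneg _ hM0.ne', Int.emod_lt_of_pos _ hM0⟩, ?_⟩
    apply Al_congr _ hb.2
    exact Int.dvd_self_sub_emod
  rw [card_eq_sum_card_fiberwise (f := fun b => b % (MZ Z : ℤ))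
    (t := (Ico (0 : ℤ) (MZ Z)).filter (fun b => Al Z a b)) hmaps, Nat.cast_sum, ← nsmul_eq_mul,
    ← sum_const]
  apply sum_le_sum
  intro r hr
  rw [mem_filter, mem_Ico] at hr
  refine (card_low Y (MZ Z) hM r).trans ?_
  have hsub : (Icc (-(Y : ℤ)) Y).filter (fun b => (MZ Z : ℤ) ∣ b - r) ⊆
      ((Icc (-(Y : ℤ)) Y).filter (fun b => Al Z a b)).filter (fun b => b % (MZ Z : ℤ) = r) := by
    intro b hb
    rw [mem_filter] at hb
    rw [mem_filter, mem_filter]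
    refine ⟨⟨hb.1, ?_⟩, ?_⟩
    · apply Al_congr _ hr.2
      rw [← neg_sub, dvd_neg]
      exact hb.2
    · have h1 : b % (MZ Z : ℤ) = r % (MZ Z : ℤ) := (Int.emod_emod_of_dvd b dvd_rfl).symm.trans
        ((Int.emod_emod_of_dvd b dvd_rfl).trans (Int.ModEq.symm ((Int.modEq_iff_dvd).2 hb.2)))
      rw [h1]
      exact Int.emod_eq_of_lt hr.1.1 hr.1.2
  exact_mod_cast card_le_card hsub

/-- module DEN -/
theorem t_DEN (hP : Pool.Agent.L0h45.LR.S_PELL) : S_DEN := by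
  intro a ha hodd ha3
  have hp1 := part1 hP a ha ha3
  refine ⟨hp1, ?_⟩
  obtain ⟨c, hc, Y₁, hY₁⟩ := hp1
  intro ε hε
  obtain ⟨Z₁, hZ₁⟩ : ∃ Z₁ : ℕ, 16 / (ε * c) ≤ (Z₁ : ℝ) := exists_nat_ge _
  refine ⟨max (max Z₁ 4) a.toNat, fun Z hZ => ?_⟩
  have hZa : Z₁ ≤ Z := (le_max_left _ _).trans ((le_max_left _ _).trans hZ)
  have hZb : 4 ≤ Z := (le_max_right _ _).trans ((le_max_left _ _).trans hZ)
  have hZc : a.toNat ≤ Z := (le_max_right _ _).trans hZ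
  have hec : 0 < ε * c := mul_pos hε hc
  have H : ∀ p : ℕ, p.Prime → Z < p → ∀ b : ℤ, ((1 : ℕ) : ℤ) ∣ b - 0 → (p : ℤ) ^ 2 ∣ dsc a b →
      ¬ (p : ℤ) ∣ a ∧ Nat.Coprime 1 p := by
    intro p hp hZp b _ _
    refine ⟨fun h => ?_, Nat.coprime_one_left p⟩
    have h1 := Int.le_of_dvd ha h
    omega
  obtain ⟨Y₂, hY₂⟩ := bad hP a ha 1 Z le_rfl hZb 0 H (ε * c / 4) (by positivity)
  obtain ⟨Y₃, hY₃⟩ : ∃ Y₃ : ℕ, 4 * (MZ Z : ℝ) / (ε * c) ≤ (Y₃ : ℝ) := exists_nat_ge _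
  refine ⟨max (max Y₁ Y₂) Y₃, fun Y hY => ?_⟩
  have hYa : Y₁ ≤ Y := (le_max_left _ _).trans ((le_max_left _ _).trans hY)
  have hYb : Y₂ ≤ Y := (le_max_right _ _).trans ((le_max_left _ _).trans hY)
  have hYc : Y₃ ≤ Y := (le_max_right _ _).trans hY
  have h1 := hY₁ Y hYa
  have h2 := hY₂ Y hYb
  have h3 := Al_low Z Y a
  have hsub : (Icc (-(Y : ℤ)) Y).filter (fun b => Al Z a b) ⊆
      (Icc (-(Y : ℤ)) Y).filter (fun b => Squarefree (dsc a b)) ∪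
      (Icc (-(Y : ℤ)) Y).filter
      (fun b => ((1 : ℕ) : ℤ) ∣ b - 0 ∧ ∃ p : ℕ, p.Prime ∧ Z < p ∧ (p : ℤ) ^ 2 ∣ dsc a b) := by
    intro b hb
    rw [mem_filter] at hb
    rw [mem_union, mem_filter, mem_filter]
    by_cases hsq : Squarefree (dsc a b)
    · left; exact ⟨hb.1, hsq⟩
    · right
      refine ⟨hb.1, ⟨b - 0, by push_cast; ring⟩, ?_⟩
      by_contra hcon
      apply hsq
      apply sqf_of ha3 hb.2.1
      intro p hp hp5 hd
      by_cases hpZ : p ≤ Z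
      · exact hb.2.2 p hp hp5 hpZ hd
      · exact hcon ⟨p, hp, not_le.1 hpZ, hd⟩
  have h4 : (((Icc (-(Y : ℤ)) Y).filter (fun b => Al Z a b)).card : ℝ) ≤
      (((Icc (-(Y : ℤ)) Y).filter (fun b => Squarefree (dsc a b))).card : ℝ) +
      (((Icc (-(Y : ℤ)) Y).filter
      (fun b => ((1 : ℕ) : ℤ) ∣ b - 0 ∧ ∃ p : ℕ, p.Prime ∧ Z < p ∧ (p : ℤ) ^ 2 ∣ dsc a b)).card : ℝ) := by
    exact_mod_cast (card_le_card hsub).trans (card_union_le _ _)
  have hMr : (0 : ℝ) < (MZ Z : ℝ) := by exact_mod_cast MZ_pos Z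
  have hZr : (0 : ℝ) < (Z : ℝ) := by exact_mod_cast (by omega : 0 < Z)
  have h5 : (((Ico (0 : ℤ) (MZ Z)).filter (fun b => Al Z a b)).card : ℝ) ≤ (MZ Z : ℝ) := by
    have h6 := card_filter_le (Ico (0 : ℤ) (MZ Z)) (fun b => Al Z a b)
    rw [Int.card_Ico, sub_zero, Int.toNat_natCast] at h6
    exact_mod_cast h6
  obtain ⟨q, hq⟩ : ∃ q : ℝ, q = (((Ico (0 : ℤ) (MZ Z)).filter (fun b => Al Z a b)).card : ℝ) := ⟨_, rfl⟩
  rw [← hq] at h3 h5 ⊢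
  have hq0 : 0 ≤ q := by rw [hq]; positivity
  have h6 : 2 * (Y : ℝ) * q / (MZ Z : ℝ) - q ≤ q * ((2 * (Y : ℝ) + 1) / (MZ Z : ℝ) - 1) := by
    have e : q * ((2 * (Y : ℝ) + 1) / (MZ Z : ℝ) - 1) =
        2 * (Y : ℝ) * q / (MZ Z : ℝ) - q + q / (MZ Z : ℝ) := by
      field_simp
      ring
    rw [e]
    have : 0 ≤ q / (MZ Z : ℝ) := by positivity
    linarith
  have h7 : 4 * (Y : ℝ) / (((1 : ℕ) : ℝ) * (Z : ℝ)) ≤ ε * c / 4 * Y := by
    have h8 : 16 / (ε * c) ≤ (Z : ℝ) := hZ₁.trans (by exact_mod_cast hZa)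
    rw [div_le_iff₀ hec] at h8
    rw [Nat.cast_one, one_mul, div_le_iff₀ hZr]
    have h9 : (0 : ℝ) ≤ Y := Nat.cast_nonneg _
    nlinarith
  have h8 : (MZ Z : ℝ) ≤ ε * c / 4 * Y := by
    have h9 : 4 * (MZ Z : ℝ) / (ε * c) ≤ (Y : ℝ) := hY₃.trans (by exact_mod_cast hYc)
    rw [div_le_iff₀ hec] at h9
    linarith
  have h9 : ε * (c * Y) ≤ ε * (((Icc (-(Y : ℤ)) Y).filter (fun b => Squarefree (dsc a b))).card : ℝ) :=
    mul_le_mul_of_nonneg_left h1 hε.le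
  have h10 : (0 : ℝ) ≤ ε * c * Y := by positivity
  have h11 : ε * (c * (Y : ℝ)) = ε * c * Y := by ring
  rw [h11] at h9
  obtain ⟨Bs, hBs⟩ : ∃ Bs : Finset ℤ, Bs = (Icc (-(Y : ℤ)) Y).filter
      (fun b => ((1 : ℕ) : ℤ) ∣ b - 0 ∧ ∃ p : ℕ, p.Prime ∧ Z < p ∧ (p : ℤ) ^ 2 ∣ dsc a b) := ⟨_, rfl⟩
  obtain ⟨As, hAs⟩ : ∃ As : Finset ℤ, As = (Icc (-(Y : ℤ)) Y).filter (fun b => Al Z a b) := ⟨_, rfl⟩
  obtain ⟨Ss, hSs⟩ : ∃ Ss : Finset ℤ, Ss = (Icc (-(Y : ℤ)) Y).filter (fun b => Squarefree (dsc a b)) := ⟨_, rfl⟩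
  rw [← hSs] at h1
  rw [← hSs] at h9
  rw [← hSs] at h4
  rw [← hBs] at h4
  rw [← hBs] at h2
  rw [← hAs] at h4
  rw [← hAs] at h3
  rw [← hSs]
  have h12 : 2 * (Y : ℝ) * q / (MZ Z : ℝ) ≤
      (1 + ε) * (Ss.card : ℝ) := by
    rw [add_mul, one_mul]
    linarith
  exact h12

end Pool.Agent.L0h19.AV
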